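import Mathlib
import Pool.Agent.Helper40.Lin.Defs

/-!
Modules TRANS and FULLIRR of the project on linear groups: transfer of fullness of a matrix algebra
along field homomorphisms, and irreducibility of a full matrix algebra.
-/

open scoped Matrix

namespace Pool.Agent.Helper94.Lin

open Pool.Agent.Helper40.Lin

universe u v w

theorem full_up {F : Type u} [Field F] {k : Type w} [Field k] (m : ℕ) (σ : F →+* k)
    (a b : Matrix (Fin m) (Fin m) F) (h : Algebra.adjoin F {a, b} = ⊤) :
    Algebra.adjoin k {a.map σ, b.map σ} = ⊤ := by
  have key : ∀ M : Matrix (Fin m) (Fin m) F,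
      M.map σ ∈ Algebra.adjoin k ({a.map σ, b.map σ} : Set (Matrix (Fin m) (Fin m) k)) := by
    intro M
    have hM : M ∈ Algebra.adjoin F ({a, b} : Set (Matrix (Fin m) (Fin m) F)) := by
      rw [h]; exact Algebra.mem_top
    induction hM using Algebra.adjoin_induction with
    | mem x hx =>
      rcases hx with rfl | hx
      · exact Algebra.subset_adjoin (Or.inl rfl)
      · rw [Set.mem_singleton_iff] at hx
        subst hx
        exact Algebra.subset_adjoin (Or.inr rfl)
    | algebraMap r =>
      have e : (algebraMap F (Matrix (Fin m) (Fin m) F) r).map σ =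
          algebraMap k (Matrix (Fin m) (Fin m) k) (σ r) := by
        ext i j
        simp only [Matrix.map_apply, Matrix.algebraMap_matrix_apply]
        split_ifs <;> simp
      rw [e]
      exact Subalgebra.algebraMap_mem _ _
    | add x y _ _ hx hy =>
      have e : (x + y).map σ = x.map σ + y.map σ := by
        ext i j
        simp
      rw [e]
      exact Subalgebra.add_mem _ hx hy
    | mul x y _ _ hx hy =>
      have e : (x * y).map σ = x.map σ * y.map σ := Matrix.map_mul
      rw [e]
      exact Subalgebra.mul_mem _ hx hy
  rw [eq_top_iff]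
  intro M _
  rw [Matrix.matrix_eq_sum_single M]
  refine Subalgebra.sum_mem _ fun i _ => Subalgebra.sum_mem _ fun j _ => ?_
  have e : Matrix.single i j (M i j) = M i j • (Matrix.single i j (1 : F)).map σ := by
    ext p q
    simp [Matrix.single, Matrix.map_apply]
    
  rw [e]
  exact Subalgebra.smul_mem _ (key _) _

theorem full_down {F : Type u} [Field F] {E : Type w} [Field E] (m : ℕ) (i : F →+* E)
    (a b : Matrix (Fin m) (Fin m) F) (h : Algebra.adjoin E {a.map i, b.map i} = ⊤) :
    Algebra.adjoin F {a, b} = ⊤ := by
  by_contra hne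
  have hlt : Subalgebra.toSubmodule (Algebra.adjoin F ({a, b} : Set (Matrix (Fin m) (Fin m) F)))
      < ⊤ := by
    rw [lt_top_iff_ne_top]
    intro h1
    apply hne
    rw [eq_top_iff]
    intro x _
    have : x ∈ Subalgebra.toSubmodule
        (Algebra.adjoin F ({a, b} : Set (Matrix (Fin m) (Fin m) F))) := by
      rw [h1]; exact Submodule.mem_top
    exact this
  obtain ⟨f, hf0, hf⟩ := Submodule.exists_le_ker_of_lt_top _ hlt
  set c : Fin m → Fin m → F := fun p q => f (Matrix.single p q 1) with hc
  have hfM : ∀ M : Matrix (Fin m) (Fin m) F, f M = ∑ p, ∑ q, M p q * c p q := by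
    intro M
    conv_lhs => rw [Matrix.matrix_eq_sum_single M]
    rw [map_sum]
    refine Finset.sum_congr rfl fun p _ => ?_
    rw [map_sum]
    refine Finset.sum_congr rfl fun q _ => ?_
    have e : Matrix.single p q (M p q) = M p q • (Matrix.single p q (1 : F)) := by
      rw [Matrix.smul_single, smul_eq_mul, mul_one]
    rw [e, map_smul, smul_eq_mul]
  let g : Matrix (Fin m) (Fin m) E →ₗ[E] E :=
    { toFun := fun M => ∑ p, ∑ q, M p q * i (c p q)
      map_add' := by
        intro M N
        simp only [Matrix.add_apply, add_mul, Finset.sum_add_distrib]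
      map_smul' := by
        intro r M
        simp only [Matrix.smul_apply, smul_eq_mul, RingHom.id_apply, Finset.mul_sum, mul_assoc] }
  have hg : ∀ M : Matrix (Fin m) (Fin m) E, g M = 0 := by
    intro M
    have hM : M ∈ Subalgebra.toSubmodule
        (Algebra.adjoin E ({a.map i, b.map i} : Set (Matrix (Fin m) (Fin m) E))) := by
      rw [h]; exact Submodule.mem_top
    rw [Algebra.adjoin_eq_span] at hM
    induction hM using Submodule.span_induction with
    | mem x hx =>
      have h2 : ({a.map i, b.map i} : Set (Matrix (Fin m) (Fin m) E)) =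
          (i.mapMatrix : Matrix (Fin m) (Fin m) F →+* Matrix (Fin m) (Fin m) E) '' {a, b} := by
        rw [Set.image_pair]
        rfl
      have hx2 : x ∈ (Submonoid.closure ({a, b} : Set (Matrix (Fin m) (Fin m) F))).map
          ((i.mapMatrix : Matrix (Fin m) (Fin m) F →+* Matrix (Fin m) (Fin m) E) :
            Matrix (Fin m) (Fin m) F →* Matrix (Fin m) (Fin m) E) := by
        rw [MonoidHom.map_mclosure]
        rw [h2] at hx
        exact hx
      obtain ⟨y, hy, rfl⟩ := hx2
      have hy2 : f y = 0 := by
        have : y ∈ LinearMap.ker f := by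
          apply hf
          show y ∈ Algebra.adjoin F ({a, b} : Set (Matrix (Fin m) (Fin m) F))
          have h3 : Submonoid.closure ({a, b} : Set (Matrix (Fin m) (Fin m) F)) ≤
              (Algebra.adjoin F ({a, b} : Set (Matrix (Fin m) (Fin m) F))).toSubmonoid := by
            rw [Submonoid.closure_le]
            exact Algebra.subset_adjoin
          exact h3 hy
        exact this
      rw [hfM] at hy2
      have h4 := congrArg i hy2
      rw [map_sum, map_zero] at h4
      show ∑ p, ∑ q, (i.mapMatrix y) p q * i (c p q) = 0
      rw [← h4]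
      refine Finset.sum_congr rfl fun p _ => ?_
      rw [map_sum]
      refine Finset.sum_congr rfl fun q _ => ?_
      rw [map_mul]
      rfl
    | zero => exact map_zero g
    | add x y _ _ hx hy => rw [map_add, hx, hy, add_zero]
    | smul r x _ hx => rw [map_smul, hx, smul_zero]
  apply hf0
  ext M
  rw [hfM]
  have hc0 : ∀ p q, c p q = 0 := by
    intro p q
    have h5 := hg (Matrix.single p q 1)
    have h6 : g (Matrix.single p q 1) = i (c p q) := by
      show ∑ p', ∑ q', (Matrix.single p q (1 : E)) p' q' * i (c p' q') = i (c p q)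
      rw [Finset.sum_eq_single p, Finset.sum_eq_single q]
      · simp
      · intro q' _ hq'
        rw [Matrix.single_apply_of_ne _ _ _ _ _ (by tauto), zero_mul]
      · simp
      · intro p' _ hp'
        refine Finset.sum_eq_zero fun q' _ => ?_
        rw [Matrix.single_apply_of_ne _ _ _ _ _ (by tauto), zero_mul]
      · simp
    rw [h6] at h5
    exact (map_eq_zero i).1 h5
  simp [hc0]

/-- transfer of fullness along a field homomorphism -/
theorem TRANS {F : Type u} [Field F] {E : Type v} [Field E] {k : Type w} [Field k] (m : ℕ)
    (i : F →+* E) (σ : F →+* k) (a b : Matrix (Fin m) (Fin m) F)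
    (h : Algebra.adjoin E {a.map i, b.map i} = ⊤) : Algebra.adjoin k {a.map σ, b.map σ} = ⊤ :=
  full_up m σ a b (full_down m i a b h)

theorem FULLIRR {k : Type*} [Field k] (m : ℕ) (a b : GL (Fin m) k)
    (h : Algebra.adjoin k {a.1, b.1} = ⊤) : Irr a b := by
  intro F ha hb
  have key : ∀ M : Matrix (Fin m) (Fin m) k, ∀ v ∈ F, M.mulVec v ∈ F := by
    intro M
    have hM : M ∈ Algebra.adjoin k ({a.1, b.1} : Set (Matrix (Fin m) (Fin m) k)) := by
      rw [h]; exact Algebra.mem_top
    induction hM using Algebra.adjoin_induction with
    | mem x hx =>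
      rcases hx with rfl | hx
      · exact ha
      · rw [Set.mem_singleton_iff] at hx
        subst hx
        exact hb
    | algebraMap r =>
      intro v hv
      rw [Algebra.algebraMap_eq_smul_one, Matrix.smul_mulVec, Matrix.one_mulVec]
      exact F.smul_mem _ hv
    | add x y _ _ hx hy =>
      intro v hv
      rw [Matrix.add_mulVec]
      exact F.add_mem (hx v hv) (hy v hv)
    | mul x y _ _ hx hy =>
      intro v hv
      rw [← Matrix.mulVec_mulVec]
      exact hx _ (hy v hv)
  by_cases hF : F = ⊥
  · exact Or.inl hF
  · right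
    obtain ⟨v, hv, hv0⟩ := Submodule.exists_mem_ne_zero_of_ne_bot hF
    obtain ⟨j, hj⟩ : ∃ j, v j ≠ 0 := by
      by_contra hcon
      push Not at hcon
      exact hv0 (funext hcon)
    rw [eq_top_iff]
    intro w _
    have e : w = (Matrix.of fun p q => if q = j then w p / v j else 0).mulVec v := by
      ext p
      rw [Matrix.mulVec, dotProduct, Finset.sum_eq_single j]
      · simp [div_mul_cancel₀ _ hj]
      · intro q _ hq
        simp [hq]
      · simp
    rw [e]
    exact key _ v hv

end Pool.Agent.Helper94.Lin
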