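import Mathlib
import Pool.Agent.Helper40.Lin.Defs
import Pool.Agent.Helper37.Lin.ALG1
import Pool.Agent.Helper24.Lin.ALG2

/-!
Module ALG3 of the project on linear groups: combination of ALG1 and ALG2 (taken here as
hypotheses for the algebraic closure of the base field).
-/

open scoped Matrix

namespace Pool.Agent.Helper94.Lin

open Pool.Agent.Helper40.Lin

universe u

/-- combination of ALG1 and ALG2, with these two as hypotheses for the algebraic closure -/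
theorem ALG3_of {K : Type u} [Field K]
    (H1 : ∀ (n : ℕ) (t s : GL (Fin n) (AlgebraicClosure K)),
      (∀ q : ℕ, 1 ≤ q → ¬ TriE (t ^ q).1 (s ^ q).1) →
      ∃ q : ℕ, 1 ≤ q ∧ ∃ m : ℕ, 2 ≤ m ∧
      ∃ φ : Subgroup.closure ({t ^ q, s ^ q} : Set (GL (Fin n) (AlgebraicClosure K))) →*
          GL (Fin m) (AlgebraicClosure K),
        ∀ q' : ℕ, 1 ≤ q' → Algebra.adjoin (AlgebraicClosure K)
          {((φ ⟨t ^ q, Subgroup.subset_closure (by simp)⟩) ^ q').1,
            ((φ ⟨s ^ q, Subgroup.subset_closure (by simp)⟩) ^ q').1} = ⊤)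
    (H2 : ∀ (m : ℕ), 2 ≤ m → ∀ (t s : GL (Fin m) (AlgebraicClosure K)),
      (∀ q : ℕ, 1 ≤ q → Algebra.adjoin (AlgebraicClosure K) {(t ^ q).1, (s ^ q).1} = ⊤) →
      ∃ (k : Type) (_ : NontriviallyNormedField k) (_ : ProperSpace k)
      (ψ : Subgroup.closure ({t, s} : Set (GL (Fin m) (AlgebraicClosure K))) →* GL (Fin m) k),
      (∀ q : ℕ, 1 ≤ q → Irr ((ψ ⟨t, Subgroup.subset_closure (by simp)⟩) ^ q)
        ((ψ ⟨s, Subgroup.subset_closure (by simp)⟩) ^ q)) ∧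
      Unb (ψ ⟨t, Subgroup.subset_closure (by simp)⟩))
    (n : ℕ) (t s : GL (Fin n) K)
    (h : ∀ q : ℕ, 1 ≤ q → ¬ SimTri (t ^ q).1 (s ^ q).1) :
    ∃ q : ℕ, 1 ≤ q ∧ ∃ m : ℕ, 1 ≤ m ∧ ∃ (k : Type) (_ : NontriviallyNormedField k)
      (_ : ProperSpace k)
      (ψ : Subgroup.closure ({t ^ q, s ^ q} : Set (GL (Fin n) K)) →* GL (Fin m) k),
      (∀ q' : ℕ, 1 ≤ q' → Irr ((ψ ⟨t ^ q, Subgroup.subset_closure (by simp)⟩) ^ q')
        ((ψ ⟨s ^ q, Subgroup.subset_closure (by simp)⟩) ^ q')) ∧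
      Unb (ψ ⟨t ^ q, Subgroup.subset_closure (by simp)⟩) := by
  set ι : GL (Fin n) K →* GL (Fin n) (AlgebraicClosure K) :=
    Matrix.GeneralLinearGroup.map (algebraMap K (AlgebraicClosure K)) with hι
  have hval : ∀ (x : GL (Fin n) K) (q : ℕ), ((ι x) ^ q).1 =
      ((x ^ q).1).map (algebraMap K (AlgebraicClosure K)) := by
    intro x q
    rw [← map_pow]
    rfl
  obtain ⟨q, hq, m, hm, φ, hφ⟩ := H1 n (ι t) (ι s) (by
    intro q hq htri
    apply h q hq
    unfold SimTri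
    rw [← hval, ← hval]
    exact htri)
  have hA1 : ι t ^ q ∈ Subgroup.closure
      ({ι t ^ q, ι s ^ q} : Set (GL (Fin n) (AlgebraicClosure K))) :=
    Subgroup.subset_closure (Or.inl rfl)
  have hA2 : ι s ^ q ∈ Subgroup.closure
      ({ι t ^ q, ι s ^ q} : Set (GL (Fin n) (AlgebraicClosure K))) :=
    Subgroup.subset_closure (Or.inr rfl)
  obtain ⟨t', ht'⟩ : ∃ x, x = φ ⟨ι t ^ q, hA1⟩ := ⟨_, rfl⟩
  obtain ⟨s', hs'⟩ : ∃ x, x = φ ⟨ι s ^ q, hA2⟩ := ⟨_, rfl⟩
  rw [← ht', ← hs'] at hφ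
  obtain ⟨k, ik, ip, ψ, hirr, hunb⟩ := H2 m hm t' s' hφ
  have hmem : ∀ x : Subgroup.closure ({t ^ q, s ^ q} : Set (GL (Fin n) K)),
      ι x.1 ∈ Subgroup.closure
        ({ι t ^ q, ι s ^ q} : Set (GL (Fin n) (AlgebraicClosure K))) := by
    intro x
    have h1 : (Subgroup.closure ({t ^ q, s ^ q} : Set (GL (Fin n) K))).map ι ≤
        Subgroup.closure
        ({ι t ^ q, ι s ^ q} : Set (GL (Fin n) (AlgebraicClosure K))) := by
      rw [MonoidHom.map_closure]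
      apply Subgroup.closure_mono
      rintro _ ⟨y, hy, rfl⟩
      rcases hy with rfl | hy
      · exact Or.inl (map_pow ι t q)
      · rw [Set.mem_singleton_iff] at hy
        subst hy
        exact Or.inr (map_pow ι s q)
    exact h1 ⟨x.1, x.2, rfl⟩
  let f1 : Subgroup.closure ({t ^ q, s ^ q} : Set (GL (Fin n) K)) →* Subgroup.closure
        ({ι t ^ q, ι s ^ q} : Set (GL (Fin n) (AlgebraicClosure K))) :=
    (ι.comp (Subgroup.subtype _)).codRestrict _ hmem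
  have ht1 : f1 ⟨t ^ q, Subgroup.subset_closure (by simp)⟩ =
      ⟨ι t ^ q, hA1⟩ := Subtype.ext (map_pow ι t q)
  have hs1 : f1 ⟨s ^ q, Subgroup.subset_closure (by simp)⟩ =
      ⟨ι s ^ q, hA2⟩ := Subtype.ext (map_pow ι s q)
  have hmem2 : ∀ x : Subgroup.closure ({t ^ q, s ^ q} : Set (GL (Fin n) K)),
      φ (f1 x) ∈ Subgroup.closure ({t', s'} : Set (GL (Fin m) (AlgebraicClosure K))) := by
    rintro ⟨x, hx⟩
    induction hx using Subgroup.closure_induction with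
    | mem x hx =>
      rcases hx with rfl | hx
      · rw [ht1, ← ht']
        exact Subgroup.subset_closure (Or.inl rfl)
      · rw [Set.mem_singleton_iff] at hx
        subst hx
        rw [hs1, ← hs']
        exact Subgroup.subset_closure (Or.inr rfl)
    | one =>
      have e : (⟨1, Subgroup.one_mem _⟩ :
        Subgroup.closure ({t ^ q, s ^ q} : Set (GL (Fin n) K))) = 1 := rfl
      rw [e, map_one, map_one]
      exact Subgroup.one_mem _
    | mul x y hx hy h1 h2 =>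
      have e : (⟨x * y, Subgroup.mul_mem _ hx hy⟩ :
        Subgroup.closure ({t ^ q, s ^ q} : Set (GL (Fin n) K))) = ⟨x, hx⟩ * ⟨y, hy⟩ := rfl
      rw [e, map_mul, map_mul]
      exact Subgroup.mul_mem _ h1 h2
    | inv x hx h1 =>
      have e : (⟨x⁻¹, Subgroup.inv_mem _ hx⟩ :
        Subgroup.closure ({t ^ q, s ^ q} : Set (GL (Fin n) K))) = ⟨x, hx⟩⁻¹ := rfl
      rw [e, map_inv, map_inv]
      exact Subgroup.inv_mem _ h1
  let f2 : Subgroup.closure ({t ^ q, s ^ q} : Set (GL (Fin n) K)) →*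
      Subgroup.closure ({t', s'} : Set (GL (Fin m) (AlgebraicClosure K))) :=
    (φ.comp f1).codRestrict _ hmem2
  have ht2 : f2 ⟨t ^ q, Subgroup.subset_closure (by simp)⟩ =
      ⟨t', Subgroup.subset_closure (by simp)⟩ := Subtype.ext (by
        show φ (f1 _) = t'
        rw [ht1, ht'])
  have hs2 : f2 ⟨s ^ q, Subgroup.subset_closure (by simp)⟩ =
      ⟨s', Subgroup.subset_closure (by simp)⟩ := Subtype.ext (by
        show φ (f1 _) = s'
        rw [hs1, hs'])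
  refine ⟨q, hq, m, le_trans (by norm_num) hm, k, ik, ip, ψ.comp f2, ?_, ?_⟩
  · intro q' hq'
    have h3 := hirr q' hq'
    rw [MonoidHom.comp_apply, MonoidHom.comp_apply, ht2, hs2]
    exact h3
  · rw [MonoidHom.comp_apply, ht2]
    exact hunb

/-- combination of ALG1 and ALG2 -/
theorem ALG3 {K : Type u} [Field K] [CharZero K] (n : ℕ) (t s : GL (Fin n) K)
    (h : ∀ q : ℕ, 1 ≤ q → ¬ SimTri (t ^ q).1 (s ^ q).1) :
    ∃ q : ℕ, 1 ≤ q ∧ ∃ m : ℕ, 1 ≤ m ∧ ∃ (k : Type) (_ : NontriviallyNormedField k)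
      (_ : ProperSpace k)
      (ψ : Subgroup.closure ({t ^ q, s ^ q} : Set (GL (Fin n) K)) →* GL (Fin m) k),
      (∀ q' : ℕ, 1 ≤ q' → Irr ((ψ ⟨t ^ q, Subgroup.subset_closure (by simp)⟩) ^ q')
        ((ψ ⟨s ^ q, Subgroup.subset_closure (by simp)⟩) ^ q')) ∧
      Unb (ψ ⟨t ^ q, Subgroup.subset_closure (by simp)⟩) :=
  ALG3_of (fun n t s h => Pool.Agent.Helper37.Lin.ALG1 n t s h)
    (fun m hm t s h => Pool.Agent.Helper24.Lin.ALG2 m hm t s h) n t s h

end Pool.Agent.Helper94.Lin
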